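import Mathlib

/-! The game of Hyperopic Cops and Robber. -/

namespace Pool.Agent.X45.HY

variable {V : Type}

open Classical in
/-- What the cops, on the vertices `c i`, observe when the robber is on `r`: nothing (`none`) when
`r` is adjacent to the vertex of every cop, and the vertex `r` itself otherwise. -/
noncomputable def obs (G : SimpleGraph V) {k : ℕ} (c : Fin k → V) (r : V) : Option V :=
  if ∀ i, G.Adj (c i) r then none else some r

open Classical in
/-- The cops on `c` are told to go to `d`: cop `i` goes to `d i` if this is adjacent to its vertex,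
and stays where it is otherwise. -/
noncomputable def move (G : SimpleGraph V) {k : ℕ} (c d : Fin k → V) : Fin k → V :=
  fun i => if G.Adj (c i) (d i) then d i else c i

/-- The play of `k` cops with starting position `c0` and strategy `σ` (a function of the sequence
of all observations made so far) against a robber whose position after `t` robber moves is `ρ t`.
`play G c0 σ ρ t` consists of the position of the cops after `t` cop moves and of the list of all
observations made up to the time just after the `t`-th robber move (the robber is observed both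
after every cop move and after every robber move). -/
noncomputable def play (G : SimpleGraph V) {k : ℕ} (c0 : Fin k → V)
    (σ : List (Option V) → Fin k → V) (ρ : ℕ → V) : ℕ → (Fin k → V) × List (Option V)
  | 0 => (c0, [obs G c0 (ρ 0)])
  | t + 1 =>
    (move G (play G c0 σ ρ t).1 (σ (play G c0 σ ρ t).2),
      (play G c0 σ ρ t).2 ++
        [obs G (move G (play G c0 σ ρ t).1 (σ (play G c0 σ ρ t).2)) (ρ t),
          obs G (move G (play G c0 σ ρ t).1 (σ (play G c0 σ ρ t).2)) (ρ (t + 1))])

/-- `k` cops win Hyperopic Cops and Robber on `G`: for some starting position and some strategy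
depending only on the observations, every robber (staying or moving along an edge in each of his
turns) is caught, i.e. at some time some cop is on the robber's vertex, either just after the
placement or a robber move, or just after a cop move. -/
def CopsWin (G : SimpleGraph V) (k : ℕ) : Prop :=
  ∃ (c0 : Fin k → V) (σ : List (Option V) → Fin k → V), ∀ ρ : ℕ → V,
    (∀ t, ρ (t + 1) = ρ t ∨ G.Adj (ρ t) (ρ (t + 1))) →
    ∃ t, ∃ i, (play G c0 σ ρ t).1 i = ρ t ∨ (play G c0 σ ρ (t + 1)).1 i = ρ t

/-- The hyperopic cop number. -/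
noncomputable def cH (G : SimpleGraph V) : ℕ := sInf {k : ℕ | CopsWin G k}

/-- `Υ(G)`: the least size of a nonempty set `S` of vertices having at most `|S|` common
neighbours. -/
noncomputable def Ups (G : SimpleGraph V) : ℕ :=
  sInf {n : ℕ | ∃ S : Finset V, S.Nonempty ∧ S.card = n ∧
    {w : V | ∀ v ∈ S, G.Adj v w}.ncard ≤ S.card}

/-- adjacency in the join of two graphs -/
def joinAdj {V W : Type} (G : SimpleGraph V) (J : SimpleGraph W) : V ⊕ W → V ⊕ W → Prop
  | Sum.inl a, Sum.inl b => G.Adj a b
  | Sum.inr a, Sum.inr b => J.Adj a b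
  | Sum.inl _, Sum.inr _ => True
  | Sum.inr _, Sum.inl _ => True

/-- The join `G ∨ J`: the disjoint union of `G` and `J` together with all edges between them. -/
def join {V W : Type} (G : SimpleGraph V) (J : SimpleGraph W) : SimpleGraph (V ⊕ W) where
  Adj := joinAdj G J
  symm := ⟨by
    rintro (a | a) (b | b) h
    · exact (show G.Adj a b from h).symm
    · trivial
    · trivial
    · exact (show J.Adj a b from h).symm⟩
  loopless := ⟨by
    rintro (a | a) h
    · exact G.loopless.irrefl a h
    · exact J.loopless.irrefl a h⟩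

/-- As many cops as vertices win at once. -/
theorem copsWin_card [Fintype V] (G : SimpleGraph V) : CopsWin G (Fintype.card V) := by
  classical
  refine ⟨(Fintype.equivFin V).symm, fun _ => (Fintype.equivFin V).symm, fun ρ _ => ?_⟩
  exact ⟨0, Fintype.equivFin V (ρ 0), Or.inl (by simp [play])⟩

theorem cH_spec [Fintype V] (G : SimpleGraph V) : CopsWin G (cH G) :=
  Nat.sInf_mem (s := {k : ℕ | CopsWin G k}) ⟨_, copsWin_card G⟩

theorem cH_le (G : SimpleGraph V) {k : ℕ} (h : CopsWin G k) : cH G ≤ k :=
  Nat.sInf_le (s := {k : ℕ | CopsWin G k}) h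

/-- The robber, allowed to go to the vertices satisfying `R`, has a good option: either for every
`d` an invisible vertex avoiding `d`, or a visible vertex no cop can reach. -/
def Opt (G : SimpleGraph V) {k : ℕ} (c : Fin k → V) (I R : V → Prop) : Prop :=
  (∀ d : Fin k → V, ∃ r', R r' ∧ I r' ∧ (∀ i, G.Adj (c i) r') ∧ ∀ i, d i ≠ r') ∨
    (∃ r', R r' ∧ I r' ∧ ∀ i, r' ≠ c i ∧ ¬ G.Adj (c i) r')

theorem key (G : SimpleGraph V) {k : ℕ} (c : Fin k → V) (σ : List (Option V) → Fin k → V)
    (h : List (Option V)) (I R : V → Prop) (ho : Opt G c I R) :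
    ∃ r', R r' ∧ I r' ∧ (∀ i, c i ≠ r') ∧ ∀ i, move G c (σ (h ++ [obs G c r'])) i ≠ r' := by
  classical
  rcases ho with hA | ⟨r', hR, hI, hB⟩
  · obtain ⟨r', hR, hI, hadj, hd⟩ := hA (move G c (σ (h ++ [none])))
    have ho : obs G c r' = none := if_pos hadj
    refine ⟨r', hR, hI, fun i hi => ?_, fun i => ?_⟩
    · have := hadj i
      rw [hi] at this
      exact G.loopless.irrefl _ this
    · rw [ho]; exact hd i
  · refine ⟨r', hR, hI, fun i hi => (hB i).1 hi.symm, fun i hi => ?_⟩
    unfold move at hi
    split at hi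
    · rename_i hadj
      rw [hi] at hadj
      exact (hB i).2 hadj
    · exact (hB i).1 hi.symm

/-- If the robber always has a good option then `k` cops do not win. -/
theorem survive (G : SimpleGraph V) (k : ℕ) (I : V → Prop)
    (h0 : ∀ c : Fin k → V, Opt G c I (fun _ => True))
    (h1 : ∀ (c : Fin k → V) (r : V), I r → (∀ i, c i ≠ r) →
      Opt G c I (fun r' => r' = r ∨ G.Adj r r')) : ¬ CopsWin G k := by
  classical
  rintro ⟨c0, σ, hw⟩
  let P : (Fin k → V) × List (Option V) × V → Prop := fun s =>
    I s.2.2 ∧ (∀ i, s.1 i ≠ s.2.2) ∧ ∀ i, move G s.1 (σ s.2.1) i ≠ s.2.2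
  obtain ⟨r0, -, hI0, hc0, hm0⟩ := key G c0 σ [] I (fun _ => True) (h0 c0)
  have hP0 : P (c0, [obs G c0 r0], r0) := ⟨hI0, hc0, by simpa using hm0⟩
  have next : ∀ s : {s // P s}, ∃ s' : {s // P s},
      s'.1.1 = move G s.1.1 (σ s.1.2.1) ∧
      (s'.1.2.2 = s.1.2.2 ∨ G.Adj s.1.2.2 s'.1.2.2) ∧
      s'.1.2.1 = s.1.2.1 ++ [obs G (move G s.1.1 (σ s.1.2.1)) s.1.2.2,
        obs G (move G s.1.1 (σ s.1.2.1)) s'.1.2.2] := by
    rintro ⟨⟨c, h, r⟩, hI, hc, hm⟩
    obtain ⟨r', hR, hI', hc', hm'⟩ := key G (move G c (σ h)) σ
      (h ++ [obs G (move G c (σ h)) r]) I (fun r' => r' = r ∨ G.Adj r r')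
      (h1 (move G c (σ h)) r hI hm)
    refine ⟨⟨(move G c (σ h), h ++ [obs G (move G c (σ h)) r, obs G (move G c (σ h)) r'], r'),
      hI', hc', ?_⟩, rfl, hR, rfl⟩
    intro i
    have := hm' i
    rw [List.append_assoc] at this
    exact this
  choose f hf using next
  let seq : ℕ → {s // P s} := fun n => f^[n] ⟨_, hP0⟩
  have hseq : ∀ n, seq (n + 1) = f (seq n) := fun n => Function.iterate_succ_apply' f n _
  let ρ : ℕ → V := fun t => (seq t).1.2.2
  have hplay : ∀ t, play G c0 σ ρ t = ((seq t).1.1, (seq t).1.2.1) := by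
    intro t
    induction t with
    | zero => rfl
    | succ t ih =>
      have h2 := hf (seq t)
      rw [← hseq t] at h2
      rw [play, ih]
      refine Prod.ext h2.1.symm ?_
      exact h2.2.2.symm
  obtain ⟨t, i, hi⟩ := hw ρ (fun t => by
    have h2 := hf (seq t)
    rw [← hseq t] at h2
    exact h2.2.1)
  rcases hi with hi | hi
  · rw [hplay t] at hi
    exact (seq t).2.2.1 i hi
  · rw [play, hplay t] at hi
    exact (seq t).2.2.2 i hi

end Pool.Agent.X45.HY
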