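import Mathlib
import Pool.Agent.X45.HY.Game

/-! A graph with hyperopic cop number at most two in which any two vertices have at least five
common neighbours; the join of two copies of it. -/

namespace Pool.Agent.X45.HY

/-- neighbourhoods of the vertices `0, …, 19`, in binary -/
def masks : List ℕ :=
  [204788, 844792, 392305, 720770, 984039, 984023, 983991, 983931, 983803, 983547, 1046541,
    1045517, 1043469, 1039374, 1031182, 1014798, 983029, 917497, 786422, 524282]

/-- adjacency read off from a list of binary numbers -/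
def adjM (L : List ℕ) (a b : ℕ) : Bool := (L.getD a 0).testBit b

/-- The graph on `20` vertices. -/
def G20 : SimpleGraph (Fin 20) where
  Adj a b := adjM masks a.1 b.1 = true
  symm := ⟨by decide +kernel⟩
  loopless := ⟨by decide +kernel⟩

instance : DecidableRel G20.Adj :=
  fun a b => inferInstanceAs (Decidable (adjM masks a.1 b.1 = true))

theorem common : ∀ a b : Fin 20,
    5 ≤ (Finset.univ.filter (fun w => G20.Adj a w ∧ G20.Adj b w)).card := by
  decide +kernel

theorem G20_conn : G20.Connected := by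
  haveI : Nonempty (Fin 20) := ⟨0⟩
  refine ⟨fun a b => ?_⟩
  have h := common a b
  obtain ⟨w, hw⟩ := Finset.card_pos.mp (by omega :
    0 < (Finset.univ.filter (fun w => G20.Adj a w ∧ G20.Adj b w)).card)
  rw [Finset.mem_filter] at hw
  exact hw.2.1.reachable.trans hw.2.2.symm.reachable

theorem hide (S T : Finset (Fin 20)) (hS : S.card ≤ 2) (hT : T.card ≤ 4) :
    ∃ w, w ∉ T ∧ ∀ v ∈ S, G20.Adj v w := by
  classical
  obtain ⟨a, b, hab⟩ : ∃ a b : Fin 20, ∀ v ∈ S, v = a ∨ v = b := by
    rcases Nat.lt_or_ge S.card 1 with h | h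
    · have : S = ∅ := Finset.card_eq_zero.mp (by omega)
      exact ⟨0, 0, by simp [this]⟩
    · rcases Nat.lt_or_ge S.card 2 with h2 | h2
      · obtain ⟨a, ha⟩ := Finset.card_eq_one.mp (by omega : S.card = 1)
        exact ⟨a, a, by simp [ha]⟩
      · obtain ⟨a, b, -, ha⟩ := Finset.card_eq_two.mp (by omega : S.card = 2)
        exact ⟨a, b, by simp [ha]⟩
  have h := common a b
  obtain ⟨w, hw, hwT⟩ := Finset.exists_mem_notMem_of_card_lt_card (by omega :
    T.card < (Finset.univ.filter (fun w => G20.Adj a w ∧ G20.Adj b w)).card)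
  rw [Finset.mem_filter] at hw
  refine ⟨w, hwT, fun v hv => ?_⟩
  rcases hab v hv with rfl | rfl
  · exact hw.2.1
  · exact hw.2.2

/-- Robber's side of the argument: at most four cops, any robber position. -/
theorem opt_join (k : ℕ) (hk : k ≤ 4) (c : Fin k → Fin 20 ⊕ Fin 20) (r : Fin 20 ⊕ Fin 20)
    (d : Fin k → Fin 20 ⊕ Fin 20) :
    ∃ r', (r' = r ∨ (join G20 G20).Adj r r') ∧ (∀ i, (join G20 G20).Adj (c i) r') ∧
      ∀ i, d i ≠ r' := by
  classical
  let L : Finset (Fin 20) := Finset.univ.filter (fun v => ∃ i, c i = Sum.inl v)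
  let R : Finset (Fin 20) := Finset.univ.filter (fun v => ∃ i, c i = Sum.inr v)
  have hLR : L.card + R.card ≤ k := by
    rw [← Finset.card_disjSum]
    calc (L.disjSum R).card ≤ (Finset.univ.image c).card := by
          refine Finset.card_le_card ?_
          intro x hx
          rw [Finset.mem_disjSum] at hx
          rw [Finset.mem_image]
          rcases hx with ⟨a, ha, rfl⟩ | ⟨a, ha, rfl⟩
          · obtain ⟨i, hi⟩ := (Finset.mem_filter.mp ha).2
            exact ⟨i, Finset.mem_univ i, hi⟩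
          · obtain ⟨i, hi⟩ := (Finset.mem_filter.mp ha).2
            exact ⟨i, Finset.mem_univ i, hi⟩
      _ ≤ (Finset.univ : Finset (Fin k)).card := Finset.card_image_le
      _ = k := by simp
  have hTl : (Finset.univ.filter (fun v : Fin 20 => ∃ i, d i = Sum.inl v)).card ≤ 4 := by
    have : (Finset.univ.filter (fun v : Fin 20 => ∃ i, d i = Sum.inl v)).card
        ≤ (Finset.univ.image d).card := by
      refine Finset.card_le_card_of_injOn Sum.inl ?_ (fun a _ b _ h => Sum.inl.inj h)
      intro a ha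
      have ha' := (Finset.mem_filter.mp (Finset.mem_coe.mp ha)).2
      obtain ⟨i, hi⟩ := ha'
      exact Finset.mem_coe.mpr (Finset.mem_image.mpr ⟨i, Finset.mem_univ i, hi⟩)
    have h2 : (Finset.univ.image d).card ≤ k := by
      simpa using Finset.card_image_le (s := (Finset.univ : Finset (Fin k))) (f := d)
    omega
  have hTr : (Finset.univ.filter (fun v : Fin 20 => ∃ i, d i = Sum.inr v)).card ≤ 4 := by
    have : (Finset.univ.filter (fun v : Fin 20 => ∃ i, d i = Sum.inr v)).card
        ≤ (Finset.univ.image d).card := by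
      refine Finset.card_le_card_of_injOn Sum.inr ?_ (fun a _ b _ h => Sum.inr.inj h)
      intro a ha
      have ha' := (Finset.mem_filter.mp (Finset.mem_coe.mp ha)).2
      obtain ⟨i, hi⟩ := ha'
      exact Finset.mem_coe.mpr (Finset.mem_image.mpr ⟨i, Finset.mem_univ i, hi⟩)
    have h2 : (Finset.univ.image d).card ≤ k := by
      simpa using Finset.card_image_le (s := (Finset.univ : Finset (Fin k))) (f := d)
    omega
  -- going to the right side, adjacent to the set `S ⊇ R`
  have goR : ∀ S : Finset (Fin 20), S.card ≤ 2 → R ⊆ S → ∃ w : Fin 20, (∀ v ∈ S, G20.Adj v w) ∧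
      (∀ i, (join G20 G20).Adj (c i) (Sum.inr w)) ∧ ∀ i, d i ≠ Sum.inr w := by
    intro S hS hRS
    obtain ⟨w, hw, hadj⟩ := hide S _ hS hTr
    refine ⟨w, hadj, fun i => ?_, fun i hi => hw ?_⟩
    · rcases hci : c i with v | v
      · trivial
      · exact hadj v (hRS (Finset.mem_filter.mpr ⟨Finset.mem_univ v, i, hci⟩))
    · exact Finset.mem_filter.mpr ⟨Finset.mem_univ w, i, hi⟩
  have goL : ∀ S : Finset (Fin 20), S.card ≤ 2 → L ⊆ S → ∃ w : Fin 20, (∀ v ∈ S, G20.Adj v w) ∧
      (∀ i, (join G20 G20).Adj (c i) (Sum.inl w)) ∧ ∀ i, d i ≠ Sum.inl w := by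
    intro S hS hRS
    obtain ⟨w, hw, hadj⟩ := hide S _ hS hTl
    refine ⟨w, hadj, fun i => ?_, fun i hi => hw ?_⟩
    · rcases hci : c i with v | v
      · exact hadj v (hRS (Finset.mem_filter.mpr ⟨Finset.mem_univ v, i, hci⟩))
      · trivial
    · exact Finset.mem_filter.mpr ⟨Finset.mem_univ w, i, hi⟩
  rcases r with r0 | r0
  · by_cases hR : R.card ≤ 2
    · obtain ⟨w, -, h1, h2⟩ := goR R hR (Finset.Subset.refl R)
      exact ⟨Sum.inr w, Or.inr trivial, h1, h2⟩
    · obtain ⟨w, h0, h1, h2⟩ := goL (insert r0 L)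
        (by have := Finset.card_insert_le r0 L; omega) (Finset.subset_insert r0 L)
      exact ⟨Sum.inl w, Or.inr (h0 r0 (Finset.mem_insert_self r0 L)), h1, h2⟩
  · by_cases hL : L.card ≤ 2
    · obtain ⟨w, -, h1, h2⟩ := goL L hL (Finset.Subset.refl L)
      exact ⟨Sum.inl w, Or.inr trivial, h1, h2⟩
    · obtain ⟨w, h0, h1, h2⟩ := goR (insert r0 R)
        (by have := Finset.card_insert_le r0 R; omega) (Finset.subset_insert r0 R)
      exact ⟨Sum.inr w, Or.inr (h0 r0 (Finset.mem_insert_self r0 R)), h1, h2⟩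

/-- Four cops (or fewer) do not win on the join. -/
theorem not_win (k : ℕ) (hk : k ≤ 4) : ¬ CopsWin (join G20 G20) k := by
  refine survive _ k (fun _ => True) (fun c => Or.inl fun d => ?_) (fun c r _ _ => Or.inl fun d => ?_)
  · obtain ⟨r', -, h1, h2⟩ := opt_join k hk c (Sum.inl 0) d
    exact ⟨r', trivial, trivial, h1, h2⟩
  · obtain ⟨r', h0, h1, h2⟩ := opt_join k hk c r d
    exact ⟨r', h0, trivial, h1, h2⟩

theorem factA : ∀ r : Fin 20, r = 0 ∨ r = 1 ∨ G20.Adj 0 r ∨ G20.Adj 1 r := by
  decide +kernel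

theorem factB : ∀ r s : Fin 20, G20.Adj 0 r → G20.Adj 1 r → (s = r ∨ G20.Adj r s) →
    ¬ (G20.Adj 2 s ∧ G20.Adj 3 s) := by
  decide +kernel

theorem factC : ∀ s : Fin 20, s = 2 ∨ s = 3 ∨ G20.Adj 2 s ∨ G20.Adj 3 s := by
  decide +kernel

/-- the strategy of the two cops: go to the robber if visible, otherwise go to `2, 3` -/
def sig (h : List (Option (Fin 20))) : Fin 2 → Fin 20 :=
  match h.getLast? with
  | some (some r) => fun _ => r
  | _ => ![2, 3]

/-- Two cops win on the graph with `20` vertices. -/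
theorem win2 : CopsWin G20 2 := by
  classical
  refine ⟨![0, 1], sig, fun ρ hρ => ?_⟩
  by_cases hr0 : ρ 0 = 0
  · exact ⟨0, 0, Or.inl (by simp [play, hr0])⟩
  by_cases hr1 : ρ 0 = 1
  · exact ⟨0, 1, Or.inl (by simp [play, hr1])⟩
  by_cases hv : ∀ i : Fin 2, G20.Adj ((![0, 1] : Fin 2 → Fin 20) i) (ρ 0)
  · -- invisible
    have hobs : obs G20 (![0, 1] : Fin 2 → Fin 20) (ρ 0) = none := if_pos hv
    have hσ : sig (play G20 ![0, 1] sig ρ 0).2 = ![2, 3] := by
      simp [play, hobs, sig]
    have hc1 : (play G20 ![0, 1] sig ρ 1).1 = ![2, 3] := by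
      rw [play, hσ]
      funext i
      have h02 : G20.Adj 0 2 := by decide +kernel
      have h13 : G20.Adj 1 3 := by decide +kernel
      fin_cases i
      · simp [move, play, h02]
      · simp [move, play, h13]
    have hnot := factB (ρ 0) (ρ 1) (hv 0) (hv 1) (hρ 0)
    rcases factC (ρ 1) with h | h | h | h
    · exact ⟨1, 0, Or.inl (by rw [hc1, h]; rfl)⟩
    · exact ⟨1, 1, Or.inl (by rw [hc1, h]; rfl)⟩
    all_goals
      have hvis : ¬ ∀ i : Fin 2, G20.Adj ((![2, 3] : Fin 2 → Fin 20) i) (ρ 1) :=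
        fun hh => hnot ⟨hh 0, hh 1⟩
      have hobs1 : obs G20 (![2, 3] : Fin 2 → Fin 20) (ρ 1) = some (ρ 1) := if_neg hvis
      have hm : move G20 (play G20 ![0, 1] sig ρ 0).1 (sig (play G20 ![0, 1] sig ρ 0).2)
          = ![2, 3] := by
        have := hc1
        rw [play] at this
        exact this
      have hσ1 : sig (play G20 ![0, 1] sig ρ 1).2 = fun _ => ρ 1 := by
        rw [play, hm]
        simp only [sig]
        rw [show (play G20 ![0, 1] sig ρ 0).2 ++ [obs G20 ![2, 3] (ρ 0), obs G20 ![2, 3] (ρ (0 + 1))]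
          = ((play G20 ![0, 1] sig ρ 0).2 ++ [obs G20 ![2, 3] (ρ 0)]) ++ [some (ρ 1)] by
            rw [zero_add, hobs1]; simp]
        rw [List.getLast?_concat]
    · refine ⟨1, 0, Or.inr ?_⟩
      rw [play, hσ1, hc1]
      exact if_pos h
    · refine ⟨1, 1, Or.inr ?_⟩
      rw [play, hσ1, hc1]
      exact if_pos h
  · -- visible
    have hobs : obs G20 (![0, 1] : Fin 2 → Fin 20) (ρ 0) = some (ρ 0) := if_neg hv
    have hσ : sig (play G20 ![0, 1] sig ρ 0).2 = fun _ => ρ 0 := by
      simp [play, hobs, sig]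
    rcases factA (ρ 0) with h | h | h | h
    · exact absurd h hr0
    · exact absurd h hr1
    · refine ⟨0, 0, Or.inr ?_⟩
      rw [play, hσ]
      exact if_pos h
    · refine ⟨0, 1, Or.inr ?_⟩
      rw [play, hσ]
      exact if_pos h

/-- `m(X) = min {c_H(X), Υ(X)}` -/
noncomputable def mH {V : Type} (X : SimpleGraph V) : ℕ := min (cH X) (Ups X)

theorem main20 : mH G20 + mH G20 < cH (join G20 G20) := by
  have h1 : mH G20 ≤ 2 := le_trans (min_le_left _ _) (cH_le G20 win2)
  have h2 : ¬ cH (join G20 G20) ≤ 4 := fun h => not_win _ h (cH_spec (join G20 G20))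
  omega

end Pool.Agent.X45.HY
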