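import Mathlib
import Pool.Agent.X45.HY.Game

/-! A connected graph `G9` on nine vertices whose join with the one-vertex graph has hyperopic cop
number at least three, although two of its vertices have a single common neighbour. -/

namespace Pool.Agent.X45.HY

/-- neighbourhoods of the vertices `0, …, 8`, in binary -/
def masks9 : List ℕ := [254, 253, 251, 375, 367, 351, 63, 7, 56]

/-- The graph on `9` vertices: a complete graph on `0, …, 6`, the vertex `7` joined to `0, 1, 2`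
and the vertex `8` joined to `3, 4, 5`. -/
def G9 : SimpleGraph (Fin 9) where
  Adj a b := (masks9.getD a.1 0).testBit b.1 = true
  symm := ⟨by decide +kernel⟩
  loopless := ⟨by decide +kernel⟩

instance : DecidableRel G9.Adj :=
  fun a b => inferInstanceAs (Decidable ((masks9.getD a.1 0).testBit b.1 = true))

instance joinDec {V W : Type} (G : SimpleGraph V) (J : SimpleGraph W) [DecidableRel G.Adj]
    [DecidableRel J.Adj] : DecidableRel (join G J).Adj := fun a b =>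
  match a, b with
  | Sum.inl a, Sum.inl b => inferInstanceAs (Decidable (G.Adj a b))
  | Sum.inr a, Sum.inr b => inferInstanceAs (Decidable (J.Adj a b))
  | Sum.inl _, Sum.inr _ => inferInstanceAs (Decidable True)
  | Sum.inr _, Sum.inl _ => inferInstanceAs (Decidable True)

/-- the join of `G9` with the one-vertex graph -/
abbrev X10 : SimpleGraph (Fin 9 ⊕ Fin 1) := join G9 (⊥ : SimpleGraph (Fin 1))

theorem G9_conn : G9.Connected := by
  have h : ∀ a : Fin 9, a = 0 ∨ G9.Adj 0 a ∨ ∃ w, G9.Adj 0 w ∧ G9.Adj w a := by decide +kernel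
  have h0 : ∀ a : Fin 9, G9.Reachable 0 a := by
    intro a
    rcases h a with rfl | h | ⟨w, h1, h2⟩
    · exact SimpleGraph.Reachable.refl _
    · exact h.reachable
    · exact h1.reachable.trans h2.reachable
  have : Nonempty (Fin 9) := ⟨0⟩
  exact ⟨fun a b => (h0 a).symm.trans (h0 b)⟩

theorem J1_conn : (⊥ : SimpleGraph (Fin 1)).Connected := by
  have : Nonempty (Fin 1) := ⟨0⟩
  exact ⟨fun a b => by rw [Subsingleton.elim a b]⟩

theorem ups_le : Ups X10 ≤ 2 := by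
  classical
  refine Nat.sInf_le ⟨{Sum.inl 7, Sum.inl 8}, by simp, by decide, ?_⟩
  have h : ∀ w : Fin 9 ⊕ Fin 1, X10.Adj (Sum.inl 7) w → X10.Adj (Sum.inl 8) w →
      w = Sum.inr 0 := by decide +kernel
  have h1 : {w : Fin 9 ⊕ Fin 1 | ∀ v ∈ ({Sum.inl 7, Sum.inl 8} : Finset (Fin 9 ⊕ Fin 1)),
      X10.Adj v w} ⊆ {Sum.inr 0} := by
    intro w hw
    exact h w (hw _ (by simp)) (hw _ (by simp))
  have h2 := Set.ncard_le_ncard h1 (Set.finite_singleton _)
  rw [Set.ncard_singleton] at h2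
  have h3 : ({Sum.inl 7, Sum.inl 8} : Finset (Fin 9 ⊕ Fin 1)).card = 2 := by decide
  omega

/-- the vertices the robber uses -/
def I9 (r : Fin 9 ⊕ Fin 1) : Prop := r ≠ Sum.inl 7 ∧ r ≠ Sum.inl 8

instance : DecidablePred I9 := fun r => inferInstanceAs (Decidable (r ≠ Sum.inl 7 ∧ r ≠ Sum.inl 8))

theorem stepFact : ∀ x y r : Fin 9 ⊕ Fin 1, I9 r → x ≠ r → y ≠ r →
    3 ≤ (Finset.univ.filter (fun q => (q = r ∨ X10.Adj r q) ∧ I9 q ∧ X10.Adj x q ∧
      X10.Adj y q)).card ∨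
    ∃ q, (q = r ∨ X10.Adj r q) ∧ I9 q ∧ (q ≠ x ∧ ¬ X10.Adj x q) ∧ (q ≠ y ∧ ¬ X10.Adj y q) := by
  decide +kernel

theorem startFact : ∀ x y : Fin 9 ⊕ Fin 1, ∃ r, I9 r ∧ x ≠ r ∧ y ≠ r := by
  decide +kernel

theorem opt_of_pair (k : ℕ) (hk : k ≤ 2) (c : Fin k → Fin 9 ⊕ Fin 1) (x y r : Fin 9 ⊕ Fin 1)
    (hc : ∀ i, c i = x ∨ c i = y) (hr : I9 r) (hx : x ≠ r) (hy : y ≠ r) :
    Opt X10 c I9 (fun r' => r' = r ∨ X10.Adj r r') := by
  classical
  rcases stepFact x y r hr hx hy with h | ⟨q, hq, hI, hqx, hqy⟩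
  · left
    intro d
    have h2 : (Finset.univ.image d).card ≤ k := by
      simpa using Finset.card_image_le (s := (Finset.univ : Finset (Fin k))) (f := d)
    obtain ⟨q, hq, hqd⟩ := Finset.exists_mem_notMem_of_card_lt_card (lt_of_lt_of_le
      (by omega : (Finset.univ.image d).card < 3) h)
    rw [Finset.mem_filter] at hq
    refine ⟨q, hq.2.1, hq.2.2.1, fun i => ?_, fun i hi => hqd ?_⟩
    · rcases hc i with h | h
      · rw [h]; exact hq.2.2.2.1
      · rw [h]; exact hq.2.2.2.2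
    · exact Finset.mem_image.mpr ⟨i, Finset.mem_univ i, hi⟩
  · right
    refine ⟨q, hq, hI, fun i => ?_⟩
    rcases hc i with h | h
    · rw [h]; exact hqx
    · rw [h]; exact hqy

theorem not_win9 (k : ℕ) (hk : k ≤ 2) : ¬ CopsWin X10 k := by
  classical
  have pair : ∀ c : Fin k → Fin 9 ⊕ Fin 1, ∃ x y : Fin 9 ⊕ Fin 1, (∀ i, c i = x ∨ c i = y) ∧
      (k = 0 ∨ ((∃ i, c i = x) ∧ ∃ i, c i = y)) := by
    intro c
    rcases k with _ | _ | _ | k
    · exact ⟨Sum.inl 0, Sum.inl 0, fun i => i.elim0, Or.inl rfl⟩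
    · exact ⟨c 0, c 0, fun i => Or.inl (congrArg c (Fin.ext (by have := i.2; simp))), Or.inr ⟨⟨0, rfl⟩, 0, rfl⟩⟩
    · refine ⟨c 0, c 1, fun i => ?_, Or.inr ⟨⟨0, rfl⟩, 1, rfl⟩⟩
      fin_cases i
      · exact Or.inl rfl
      · exact Or.inr rfl
    · omega
  refine survive _ k I9 (fun c => ?_) (fun c r hr hcr => ?_)
  · obtain ⟨x, y, hc, -⟩ := pair c
    obtain ⟨r, hr, hx, hy⟩ := startFact x y
    rcases opt_of_pair k hk c x y r hc hr hx hy with h | ⟨q, -, hI, hq⟩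
    · left
      intro d
      obtain ⟨q, -, h1, h2, h3⟩ := h d
      exact ⟨q, trivial, h1, h2, h3⟩
    · exact Or.inr ⟨q, trivial, hI, hq⟩
  · obtain ⟨x, y, hc, h | ⟨⟨i, hi⟩, j, hj⟩⟩ := pair c
    · subst h
      exact Or.inr ⟨r, Or.inl rfl, hr, fun i => i.elim0⟩
    · exact opt_of_pair k hk c x y r hc hr (hi ▸ hcr i) (hj ▸ hcr j)

theorem main9 : Ups X10 + 1 ≤ cH X10 := by
  have h1 := ups_le
  have h2 : ¬ cH X10 ≤ 2 := fun h => not_win9 _ h (cH_spec X10)
  omega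

end Pool.Agent.X45.HY
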